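import Pool.Agent.Y819.ZF.StmP
import Pool.Agent.Y812.ZF.Small

/-!
# Project ZF, ZP2: the Pfaffian coefficient of a bipartite multigraph
-/

set_option autoImplicit false

namespace Pool.Agent.Y65.ZP

open MvPolynomial Finset Pool.Agent.Helper929 Pool.Agent.H604R2.LEC
open Pool.Agent.Y819.ZF

section det

variable {R : Type} [CommRing R] {k : ℕ}

lemma det_blocks (B : Matrix (Fin k) (Fin k) R) :
    (Matrix.fromBlocks 0 B (-B.transpose) 0).det = B.det ^ 2 := by
  have h1 : (Matrix.fromBlocks 0 B (-B.transpose) 0 : Matrix (Fin k ⊕ Fin k) (Fin k ⊕ Fin k) R) =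
      Matrix.fromBlocks B 0 0 B.transpose * (Matrix.fromBlocks 1 1 0 1 *
        (Matrix.fromBlocks 1 0 (-1) 1 * Matrix.fromBlocks 1 1 0 1)) := by
    rw [Matrix.fromBlocks_multiply, Matrix.fromBlocks_multiply, Matrix.fromBlocks_multiply]
    simp
  rw [h1, Matrix.det_mul, Matrix.det_mul, Matrix.det_mul, Matrix.det_fromBlocks_zero₂₁,
    Matrix.det_fromBlocks_zero₂₁, Matrix.det_fromBlocks_zero₁₂, Matrix.det_transpose,
    Matrix.det_one]
  ring

end det

section

variable {k : ℕ} (M : Fin k → Fin k → ℕ)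

/-- the multiplicities -/
def mm : Ed (k + k) → ℕ := fun e => bipS M e.1.1 e.1.2

lemma bipS_ne {v w : Fin (k + k)} (hvw : v < w) (h : bipS M v w ≠ 0) :
    ∃ q : Fin k × Fin k, v = Fin.castAdd k q.1 ∧ w = Fin.natAdd k q.2 := by
  revert hvw h
  refine Fin.addCases (motive := fun v => v < w → bipS M v w ≠ 0 →
    ∃ q : Fin k × Fin k, v = Fin.castAdd k q.1 ∧ w = Fin.natAdd k q.2) (fun i => ?_) (fun j => ?_) v
  · refine Fin.addCases (motive := fun w => Fin.castAdd k i < w → bipS M (Fin.castAdd k i) w ≠ 0 →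
      ∃ q : Fin k × Fin k, Fin.castAdd k i = Fin.castAdd k q.1 ∧ w = Fin.natAdd k q.2)
      (fun i' _ h => ?_) (fun j _ _ => ⟨(i, j), rfl, rfl⟩) w
    refine absurd ?_ h
    unfold bipS
    rw [Fin.addCases_left, Fin.addCases_left]
  · refine Fin.addCases (motive := fun w => Fin.natAdd k j < w → bipS M (Fin.natAdd k j) w ≠ 0 →
      ∃ q : Fin k × Fin k, Fin.natAdd k j = Fin.castAdd k q.1 ∧ w = Fin.natAdd k q.2)
      (fun i h _ => ?_) (fun j' _ h => ?_) w
    · exfalso
      rw [Fin.lt_def, Fin.val_natAdd, Fin.val_castAdd] at h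
      have := i.2
      omega
    · refine absurd ?_ h
      unfold bipS
      rw [Fin.addCases_right, Fin.addCases_right]

lemma ex_q (x : ME (mm M)) :
    ∃ q : Fin k × Fin k, x.1.1.1 = Fin.castAdd k q.1 ∧ x.1.1.2 = Fin.natAdd k q.2 := by
  apply bipS_ne M x.1.2
  intro h
  have h1 : mm M x.1 = 0 := h
  have h2 : 0 < mm M x.1 := Fin.pos x.2
  omega

/-- the pair of an edge -/
noncomputable def kap (x : ME (mm M)) : Fin k × Fin k := Classical.choose (ex_q M x)

lemma kap_fst (x : ME (mm M)) : mτ (mm M) x = Fin.castAdd k (kap M x).1 :=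
  (Classical.choose_spec (ex_q M x)).1

lemma kap_snd (x : ME (mm M)) : mη (mm M) x = Fin.natAdd k (kap M x).2 :=
  (Classical.choose_spec (ex_q M x)).2

lemma cast_ne_nat (i j : Fin k) : Fin.castAdd k i ≠ Fin.natAdd k j := by
  intro h
  have h1 := congrArg Fin.val h
  rw [Fin.val_natAdd, Fin.val_castAdd] at h1
  have := i.2
  omega

/-- the edge of a pair -/
def eij (i j : Fin k) : Ed (k + k) := ⟨(Fin.castAdd k i, Fin.natAdd k j), by
  rw [Fin.lt_def, Fin.val_natAdd, Fin.val_castAdd]
  have := i.2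
  omega⟩

lemma mm_eij (i j : Fin k) : mm M (eij i j) = M i j := by
  show bipS M (Fin.castAdd k i) (Fin.natAdd k j) = M i j
  unfold bipS
  rw [Fin.addCases_left, Fin.addCases_right]

lemma kap_iff (x : ME (mm M)) (q : Fin k × Fin k) : kap M x = q ↔ x.1 = eij q.1 q.2 := by
  have h1 := kap_fst M x
  have h2 := kap_snd M x
  unfold mτ at h1
  unfold mη at h2
  constructor
  · rintro rfl
    exact Subtype.ext (Prod.ext h1 h2)
  · intro h
    rw [h] at h1 h2
    apply Prod.ext
    · exact (Fin.castAdd_injective k k h1).symm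
    · exact (Fin.natAdd_injective k k h2).symm

lemma card_fib (q : Fin k × Fin k) [DecidablePred fun x : ME (mm M) => kap M x = q] :
    (univ.filter fun x : ME (mm M) => kap M x = q).card = M q.1 q.2 := by
  classical
  have h : (univ.filter fun x : ME (mm M) => kap M x = q) =
      ({eij q.1 q.2} : Finset (Ed (k + k))).sigma (fun e => (univ : Finset (Fin (mm M e)))) := by
    ext x
    rw [mem_filter, mem_sigma, mem_singleton, kap_iff]
    simp
  rw [h, Finset.card_sigma, Finset.sum_singleton, Finset.card_univ, Fintype.card_fin, mm_eij]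

end

section

variable {k : ℕ} (M : Fin k → Fin k → ℕ) (p : ℕ)

open Classical in
/-- the sums of the variables -/
noncomputable def BB : Matrix (Fin k) (Fin k) (MvPolynomial (ME (mm M)) (ZMod p)) :=
  Matrix.of fun i j => ∑ x ∈ univ.filter (fun x => kap M x = (i, j)), X x

lemma SM_blocks : (SM (ZMod p) (mτ (mm M)) (mη (mm M))).submatrix finSumFinEquiv finSumFinEquiv =
    Matrix.fromBlocks 0 (BB M p) (-(BB M p).transpose) 0 := by
  classical
  ext1 a b
  rcases a with i | i <;> rcases b with j | j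
  · simp only [Matrix.submatrix_apply, finSumFinEquiv_apply_left, Matrix.fromBlocks_apply₁₁,
      Matrix.zero_apply, SM, Matrix.of_apply]
    refine Finset.sum_eq_zero fun x _ => ?_
    rw [if_neg, if_neg, sub_zero]
    · rintro ⟨_, h⟩
      rw [kap_snd] at h
      exact cast_ne_nat _ _ h.symm
    · rintro ⟨_, h⟩
      rw [kap_snd] at h
      exact cast_ne_nat _ _ h.symm
  · simp only [Matrix.submatrix_apply, finSumFinEquiv_apply_left, finSumFinEquiv_apply_right,
      Matrix.fromBlocks_apply₁₂, SM, Matrix.of_apply, BB]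
    rw [Finset.sum_filter]
    refine Finset.sum_congr rfl fun x _ => ?_
    rw [if_neg (c := mτ (mm M) x = Fin.natAdd k j ∧ mη (mm M) x = Fin.castAdd k i), sub_zero]
    · by_cases h : kap M x = (i, j)
      · rw [if_pos h, if_pos]
        rw [kap_fst, kap_snd, h]
        exact ⟨rfl, rfl⟩
      · rw [if_neg h, if_neg]
        rintro ⟨h1, h2⟩
        rw [kap_fst] at h1
        rw [kap_snd] at h2
        exact h (Prod.ext (Fin.castAdd_injective k k h1) (Fin.natAdd_injective k k h2))
    · rintro ⟨h, _⟩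
      rw [kap_fst] at h
      exact cast_ne_nat _ _ h
  · simp only [Matrix.submatrix_apply, finSumFinEquiv_apply_left, finSumFinEquiv_apply_right,
      Matrix.fromBlocks_apply₂₁, SM, Matrix.of_apply, BB, Matrix.neg_apply,
      Matrix.transpose_apply]
    rw [Finset.sum_filter, ← Finset.sum_neg_distrib]
    refine Finset.sum_congr rfl fun x _ => ?_
    rw [if_neg (c := mτ (mm M) x = Fin.natAdd k i ∧ mη (mm M) x = Fin.castAdd k j), zero_sub]
    · by_cases h : kap M x = (j, i)
      · rw [if_pos h, if_pos]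
        rw [kap_fst, kap_snd, h]
        exact ⟨rfl, rfl⟩
      · rw [if_neg h, if_neg]
        rintro ⟨h1, h2⟩
        rw [kap_fst] at h1
        rw [kap_snd] at h2
        exact h (Prod.ext (Fin.castAdd_injective k k h1) (Fin.natAdd_injective k k h2))
    · rintro ⟨h, _⟩
      rw [kap_fst] at h
      exact cast_ne_nat _ _ h
  · simp only [Matrix.submatrix_apply, finSumFinEquiv_apply_right, Matrix.fromBlocks_apply₂₂,
      Matrix.zero_apply, SM, Matrix.of_apply]
    refine Finset.sum_eq_zero fun x _ => ?_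
    rw [if_neg, if_neg, sub_zero]
    · rintro ⟨h, _⟩
      rw [kap_fst] at h
      exact cast_ne_nat _ _ h
    · rintro ⟨h, _⟩
      rw [kap_fst] at h
      exact cast_ne_nat _ _ h

lemma SM_antisymm {R : Type} [CommRing R] {n : ℕ} {E : Type} [Fintype E] (τ η : E → Fin n)
    (i j : Fin n) : SM R τ η i j = - SM R τ η j i := by
  unfold SM
  rw [Matrix.of_apply, Matrix.of_apply, ← sum_neg_distrib]
  exact sum_congr rfl fun e _ => by ring

lemma SM_self {R : Type} [CommRing R] {n : ℕ} {E : Type} [Fintype E] (τ η : E → Fin n)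
    (i : Fin n) : SM R τ η i i = 0 := by
  unfold SM
  rw [Matrix.of_apply]
  exact sum_eq_zero fun e _ => sub_self _

lemma pf_SM_sq {R : Type} [CommRing R] {n : ℕ} {E : Type} [Fintype E] (τ η : E → Fin n) :
    pf n (SM R τ η) ^ 2 = (SM R τ η).det := by
  rw [eq_skew (SM R τ η) (SM_antisymm τ η) (SM_self τ η), pf_sq_ring]

lemma pf_SM_sq' : pf (k + k) (SM (ZMod p) (mτ (mm M)) (mη (mm M))) ^ 2 = (BB M p).det ^ 2 := by
  rw [pf_SM_sq, ← Matrix.det_submatrix_equiv_self finSumFinEquiv, SM_blocks, det_blocks]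

end

lemma fib_coeff (hS : S_SUB) (R : Type) [CommRing R] (K E : Type) [Fintype K] [Fintype E]
    (κ : E → K) [∀ q, DecidablePred fun e => κ e = q] (g : MvPolynomial K R) (μ : K → ℕ)
    (hμ : ∀ q, (univ.filter fun e => κ e = q).card = μ q) :
    coeff (oneE E) (aeval (fun q => ∑ e ∈ univ.filter (fun e => κ e = q),
      (X e : MvPolynomial E R)) g) =
    (((∏ q, (μ q).factorial) : ℕ) : R) * coeff (Finsupp.equivFunOnFinite.symm μ) g := by
  have h := hS R K E κ g
  have e1 : ∀ q, @Finset.filter E (fun e => κ e = q) (fun _ => Classical.propDecidable _) univ =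
      univ.filter (fun e => κ e = q) := by
    intro q
    ext e
    simp only [mem_filter]
  simp only [e1, hμ] at h
  exact h

lemma det_BB {k : ℕ} (M : Fin k → Fin k → ℕ) (p : ℕ) [∀ q, DecidablePred fun e => kap M e = q] :
    (BB M p).det = aeval (fun q => ∑ x ∈ univ.filter (fun x => kap M x = q),
      (X x : MvPolynomial (ME (mm M)) (ZMod p))) (gdet p k) := by
  unfold gdet
  rw [AlgHom.map_det]
  congr 1
  ext1 i j
  rw [AlgHom.mapMatrix_apply, Matrix.map_apply, Matrix.of_apply, aeval_X]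
  unfold BB
  rw [Matrix.of_apply]
  refine Finset.sum_congr ?_ fun _ _ => rfl
  ext x
  simp only [mem_filter]

theorem main (h : S_SUB) : S_BIP := by
  classical
  intro p _ k M hM hc
  show coeff (oneE (ME (mm M))) (pf (k + k) (SM (ZMod p) (mτ (mm M)) (mη (mm M))) ^ (p - 2)) ≠ 0
  have key : coeff (oneE (ME (mm M))) ((BB M p).det ^ (p - 2)) ≠ 0 := by
    rw [det_BB, ← map_pow, fib_coeff h (ZMod p) (Fin k × Fin k) (ME (mm M)) (kap M)
      (gdet p k ^ (p - 2)) (fun q => M q.1 q.2) (fun q => card_fib M q)]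
    refine mul_ne_zero ?_ hc
    rw [Nat.cast_prod, Finset.prod_ne_zero_iff]
    intro q _
    exact Pool.Agent.Y812.ZF.fac_ne (hM q.1 q.2)
  rcases sq_eq_sq_iff_eq_or_eq_neg.1 (pf_SM_sq' M p) with h1 | h1
  · rw [h1]
    exact key
  · rw [h1, neg_pow]
    rcases neg_one_pow_eq_or (MvPolynomial (ME (mm M)) (ZMod p)) (p - 2) with h2 | h2
    · rw [h2, one_mul]
      exact key
    · rw [h2, neg_one_mul, coeff_neg, neg_ne_zero]
      exact key

end Pool.Agent.Y65.ZP
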